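import Pool.Agent.Lib.MP_868dd5_lc.Poly

/-!
# Minimising the total crease width of a folded strip is possible in polynomial time

The definitions of the statement are in `Pool/Agent/Lib/MP_868dd5_lc/Defs.lean`.

The proof: every folded state of an interval of segments (with its two outgoing creases) can be
rearranged, without changing the MV string and without increasing the total crease width, so that
an initial interval of segments lies entirely below or entirely above the rest (`good` in
`Step.lean`). So a dynamic program over intervals of segments finds an optimal state (`Algo.lean`,
`Spec.lean`), and the dynamic program is computed by a Turing machine in polynomial time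
(`Poly.lean`, `Pool/Agent/Lib/PolyFun`).
-/

namespace Pool.Agent.Results.MP_868dd5_lc.PolyTimeAlgorithm

open Pool.Agent.Lib.MP_868dd5_lc

/-- There is a polynomial-time algorithm (a multi-stack Turing machine with running time bounded
by a polynomial in the length `n` of the MV string) that, given an MV string `s`, outputs a
folded state to unit length that is consistent with `s` and has the least total crease width. -/
theorem result : ∃ f : List Bool → List ℕ,
    Nonempty (Turing.TM2ComputableInPolyTime (id : List Bool → List Bool) encode f) ∧
    ∀ s : List Bool, FoldedState s.length (f s) ∧ Consistent s (f s) ∧
      ∀ L : List ℕ, FoldedState s.length L → Consistent s L →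
        totalWidth s.length (f s) ≤ totalWidth s.length L :=
  ⟨solve, solve_tm2, solve_spec⟩

end Pool.Agent.Results.MP_868dd5_lc.PolyTimeAlgorithm
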